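import Pool.Agent.Helper40.MR.Defs

open Finset MeasureTheory
open scoped BigOperators Nat

namespace Pool.Agent.Helper40.MR

theorem ch_nit_cont (n : ℕ) : Continuous (nit n) := by
  unfold nit
  fun_prop

theorem ch_DP_cont (s : Finset ℕ) (c : ℕ → ℂ) : Continuous (DP s c) := by
  unfold DP
  exact continuous_finsetSum _ fun n _ => continuous_const.mul (ch_nit_cont n)

theorem ch_meas (P Q H : ℝ) (f : ℕ → ℂ) (α : ℝ) : MeasurableSet {t | Small P Q H f α t} := by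
  have : {t | Small P Q H f α t} =
      ⋂ v ∈ Vs P Q H, {t | ‖DP (Cls P Q H v) f t‖ ≤ Real.exp (-(α * (v / H)))} := by
    ext t
    simp only [Small, Set.mem_iInter]
    exact Iff.rfl
  rw [this]
  refine Finset.measurableSet_biInter _ fun v _ => ?_
  exact measurableSet_le (ch_DP_cont _ _).norm.measurable measurable_const

/-- splitting a set integral according to a chain of measurable sets -/
theorem ch_split (S : Set ℝ) (hS : MeasurableSet S) (A : ℕ → Set ℝ) (hA : ∀ j, MeasurableSet (A j))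
    (g : ℝ → ℝ) (hg : ∀ t, 0 ≤ g t) (hi : IntegrableOn g S) (k : ℕ) :
    ∫ t in S, g t ≤ (∫ t in {t | t ∈ S ∧ t ∈ A 0}, g t) +
      (∑ j ∈ range k, ∫ t in {t | t ∈ S ∧ t ∈ A (j + 1) ∧ t ∉ A j}, g t) +
      ∫ t in {t | t ∈ S ∧ t ∉ A k}, g t := by
  induction k with
  | zero =>
    rw [range_zero, sum_empty, add_zero]
    have h := integral_inter_add_sdiff (f := g) (hA 0) hi
    exact h.symm.le
  | succ k ih =>
    rw [sum_range_succ]
    have hm : MeasurableSet {t | t ∈ S ∧ t ∉ A k} := hS.inter (hA k).compl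
    have hi' : IntegrableOn g {t | t ∈ S ∧ t ∉ A k} := hi.mono_set fun t ht => ht.1
    have h := integral_inter_add_sdiff (f := g) (hA (k + 1)) hi'
    have h1 : ∫ t in {t | t ∈ S ∧ t ∉ A k} ∩ A (k + 1), g t ≤
        ∫ t in {t | t ∈ S ∧ t ∈ A (k + 1) ∧ t ∉ A k}, g t := by
      refine setIntegral_mono_set (hi.mono_set fun t ht => ht.1) (Filter.Eventually.of_forall hg) ?_
      exact (LE.le.eventuallyLE fun t ht => ⟨ht.1.1, ht.2, ht.1.2⟩)
    have h2 : ∫ t in {t | t ∈ S ∧ t ∉ A k} \ A (k + 1), g t ≤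
        ∫ t in {t | t ∈ S ∧ t ∉ A (k + 1)}, g t := by
      refine setIntegral_mono_set (hi.mono_set fun t ht => ht.1) (Filter.Eventually.of_forall hg) ?_
      exact (LE.le.eventuallyLE fun t ht => ⟨ht.1.1, ht.2⟩)
    linarith

theorem ch_hit_inv {P Q P' Q' : ℝ} (h : Q ≤ P' ∨ Q' ≤ P) {p n : ℕ} (hp : p.Prime) (h1 : P < p)
    (h2 : (p : ℝ) ≤ Q) : Hit P' Q' (p * n) ↔ Hit P' Q' n := by
  constructor
  · rintro ⟨r, hr, hr1, hr2, hr3⟩
    rcases (hr.dvd_mul).1 hr3 with hd | hd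
    · have he : r = p := (Nat.prime_dvd_prime_iff_eq hr hp).1 hd
      subst he
      rcases h with h | h
      · linarith
      · linarith
    · exact ⟨r, hr, hr1, hr2, hd⟩
  · rintro ⟨r, hr, hr1, hr2, hr3⟩
    exact ⟨r, hr, hr1, hr2, hr3.mul_left p⟩

/-- the statement with positive `P 0` -/
def ch_stmt : Prop := ∃ C : ℝ, 0 < C ∧
  ∀ (P Q H α : ℕ → ℝ) (J : ℕ) (X T : ℝ) (f : ℕ → ℂ) (s : ℕ → Prop), 0 < P 0 →
  (∀ j ≤ J, 2 ≤ Real.log (P j) ∧ P j < Q j ∧ 1 ≤ H j) →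
  (∀ j < J, Q j ≤ P (j + 1) ∧ α j < α (j + 1) ∧
    4 * (Real.log (Real.log (Q (j + 1))) + 3) ≤ (α (j + 1) - α j) * Real.log (P j)) →
  0 < α 0 → α J ≤ 1 → 1 ≤ X → 1 ≤ T → CM f → (∀ j ≤ J, Inv (P j) (Q j) s) →
  ∫ t in (-T)..T, ‖DP (IocN X (2 * X))
      (res (fun n => (∀ j ∈ range (J + 1), Hit (P j) (Q j) n) ∧ s n) f) t‖ ^ 2 ≤
    C * (T / X + 1) * ∑ j ∈ range (J + 1), (1 / H j + 1 / P j + 1 / X) +
    C * (H 0 * Real.log (Q 0) + 1) ^ 2 * (P 0) ^ (-(2 * α 0)) * (T * Q 0 / X + 1) +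
    C * (T / X + 1) * ∑ j ∈ range J, (H (j + 1) * Real.log (Q (j + 1)) + 1) ^ 2 *
      (H j * Real.log (Q j) + 1) * Real.exp (-((α (j + 1) - α j) * Real.log (P (j + 1))) +
        2 * α j * Real.log (Q j) + 2 * Real.log (Real.log (Q (j + 1)))) +
    ∫ t in {t | t ∈ Set.Icc (-T) T ∧ ¬ Small (P J) (Q J) (H J) f (α J) t},
      ‖DP (IocN X (2 * X))
        (res (fun n => (∀ j ∈ range (J + 1), Hit (P j) (Q j) n) ∧ s n) f) t‖ ^ 2

/-- the set of integers hit by all intervals but the `j`-th one -/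
def ch_s (P Q : ℕ → ℝ) (J : ℕ) (s : ℕ → Prop) (j n : ℕ) : Prop :=
  (∀ i ∈ range (J + 1), i ≠ j → Hit (P i) (Q i) n) ∧ s n

theorem ch_s_eq (P Q : ℕ → ℝ) (J : ℕ) (s : ℕ → Prop) {j : ℕ} (hj : j ≤ J) :
    (fun n => ch_s P Q J s j n ∧ Hit (P j) (Q j) n) =
      fun n => (∀ j ∈ range (J + 1), Hit (P j) (Q j) n) ∧ s n := by
  funext n
  apply propext
  constructor
  · rintro ⟨⟨h1, h2⟩, h3⟩
    refine ⟨fun i hi => ?_, h2⟩
    by_cases hij : i = j
    · rw [hij]; exact h3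
    · exact h1 i hi hij
  · rintro ⟨h1, h2⟩
    exact ⟨⟨fun i hi _ => h1 i hi, h2⟩, h1 j (mem_range.2 (by omega))⟩

theorem ch_stmt_of (hT0 : ST_T0) (hTJ : ∃ C : ℝ, 0 < C ∧
  ∀ (P' Q' H' α' P Q H α X T : ℝ) (f : ℕ → ℂ) (s : ℕ → Prop), 0 < P' →
  2 ≤ Real.log P' → P' < Q' → 1 ≤ H' → 0 < α' →
  2 ≤ P → P < Q → 1 ≤ H → α' < α → α ≤ 1 → 1 ≤ Real.log Q →
  4 * (Real.log (Real.log Q) + 3) ≤ (α - α') * Real.log P' →
  1 ≤ X → 1 ≤ T → CM f → Inv P Q s →
  ∫ t in {t | t ∈ Set.Icc (-T) T ∧ Small P Q H f α t ∧ ¬ Small P' Q' H' f α' t},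
      ‖DP (IocN X (2 * X)) (res (fun n => s n ∧ Hit P Q n) f) t‖ ^ 2 ≤
    C * (T / X + 1) * (1 / H + 1 / P + 1 / X + (H * Real.log Q + 1) ^ 2 *
      (H' * Real.log Q' + 1) * Real.exp (-((α - α') * Real.log P) + 2 * α' * Real.log Q' +
        2 * Real.log (Real.log Q)))) : ch_stmt := by
  obtain ⟨C0, hC0, hT0⟩ := hT0
  obtain ⟨C1, hC1, hTJ⟩ := hTJ
  refine ⟨C0 + C1, add_pos hC0 hC1, ?_⟩
  intro P Q H α J X T f s hP0 hPQ hQP hα0 hαJ hX hT hf hs
  -- elementary facts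
  have hPpos : ∀ j ≤ J, 0 < P j := by
    intro j
    induction j with
    | zero => intro _; exact hP0
    | succ j ih =>
      intro hj
      have h1 := ih (by omega)
      have h2 := (hPQ j (by omega)).2.1
      have h3 := (hQP j (by omega)).1
      linarith
  have hP2 : ∀ j ≤ J, 2 ≤ P j := by
    intro j hj
    have h1 := Real.add_one_le_exp (Real.log (P j))
    rw [Real.exp_log (hPpos j hj)] at h1
    have := (hPQ j hj).1
    linarith
  have hQpos : ∀ j ≤ J, 0 < Q j := fun j hj => (hPpos j hj).trans (hPQ j hj).2.1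
  have hlogQ : ∀ j ≤ J, 2 ≤ Real.log (Q j) := by
    intro j hj
    exact (hPQ j hj).1.trans (Real.log_le_log (hPpos j hj) (hPQ j hj).2.1.le)
  have hmono : ∀ i k, i ≤ k → k ≤ J → α i ≤ α k := by
    intro i k hik
    induction k, hik using Nat.le_induction with
    | base => intro _; exact le_rfl
    | succ k hk ih =>
      intro h
      exact (ih (by omega)).trans (hQP k (by omega)).2.1.le
  have hα1 : ∀ j ≤ J, α j ≤ 1 := fun j hj => (hmono j J hj le_rfl).trans hαJ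
  have hαpos : ∀ j ≤ J, 0 < α j := fun j hj => hα0.trans_le (hmono 0 j (Nat.zero_le _) hj)
  have hQPm : ∀ i k, i < k → k ≤ J → Q i ≤ P k := by
    intro i k hik
    induction k, hik using Nat.le_induction with
    | base => intro h; exact (hQP i (by omega)).1
    | succ k hk ih =>
      intro h
      have h1 := ih (by omega)
      have h2 := (hPQ k (by omega)).2.1
      have h3 := (hQP k (by omega)).1
      linarith
  have hInv : ∀ j ≤ J, Inv (P j) (Q j) (ch_s P Q J s j) := by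
    intro j hj p n hp h1 h2 hn
    unfold ch_s
    refine and_congr (forall_congr' fun i => forall_congr' fun hi => forall_congr' fun hij => ?_)
      (hs j hj p n hp h1 h2 hn)
    have hi' : i ≤ J := by have := mem_range.1 hi; omega
    refine ch_hit_inv ?_ hp h1 h2
    rcases lt_or_gt_of_ne hij with h | h
    · right; exact hQPm i j h hj
    · left; exact hQPm j i h hi'
  -- the function
  obtain ⟨g, hg⟩ : ∃ g : ℝ → ℝ, g = fun t => ‖DP (IocN X (2 * X))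
      (res (fun n => (∀ j ∈ range (J + 1), Hit (P j) (Q j) n) ∧ s n) f) t‖ ^ 2 := ⟨_, rfl⟩
  have hgj : ∀ j ≤ J, g = fun t => ‖DP (IocN X (2 * X))
      (res (fun n => ch_s P Q J s j n ∧ Hit (P j) (Q j) n) f) t‖ ^ 2 := by
    intro j hj
    rw [hg, ch_s_eq P Q J s hj]
  have hgc : Continuous g := by
    rw [hg]
    exact (ch_DP_cont _ _).norm.pow 2
  have hg0 : ∀ t, 0 ≤ g t := by
    intro t; rw [hg]; exact sq_nonneg _
  have hsplit := ch_split (Set.Icc (-T) T) measurableSet_Icc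
    (fun j => {t | Small (P j) (Q j) (H j) f (α j) t}) (fun j => ch_meas _ _ _ _ _) g hg0
    (hgc.continuousOn.integrableOn_compact isCompact_Icc) J
  have hI : ∫ t in (-T)..T, g t = ∫ t in Set.Icc (-T) T, g t := by
    rw [intervalIntegral.integral_of_le (by linarith), integral_Icc_eq_integral_Ioc]
  have hR0 : ∫ t in {t | t ∈ Set.Icc (-T) T ∧ Small (P 0) (Q 0) (H 0) f (α 0) t}, g t ≤
      C0 * (T / X + 1) * (1 / H 0 + 1 / P 0 + 1 / X) +
      C0 * (H 0 * Real.log (Q 0) + 1) ^ 2 * (P 0) ^ (-(2 * α 0)) * (T * Q 0 / X + 1) := by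
    rw [hgj 0 (Nat.zero_le _)]
    exact hT0 (P 0) (Q 0) (H 0) X T (α 0) f (ch_s P Q J s 0) (hP2 0 (Nat.zero_le _))
      (hPQ 0 (Nat.zero_le _)).2.1 (hPQ 0 (Nat.zero_le _)).2.2 hX hT hα0
      (hα1 0 (Nat.zero_le _)) hf (hInv 0 (Nat.zero_le _))
  have hRj : ∀ j ∈ range J, ∫ t in {t | t ∈ Set.Icc (-T) T ∧
      Small (P (j + 1)) (Q (j + 1)) (H (j + 1)) f (α (j + 1)) t ∧
      ¬ Small (P j) (Q j) (H j) f (α j) t}, g t ≤
      C1 * (T / X + 1) * (1 / H (j + 1) + 1 / P (j + 1) + 1 / X +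
        (H (j + 1) * Real.log (Q (j + 1)) + 1) ^ 2 *
      (H j * Real.log (Q j) + 1) * Real.exp (-((α (j + 1) - α j) * Real.log (P (j + 1))) +
        2 * α j * Real.log (Q j) + 2 * Real.log (Real.log (Q (j + 1))))) := by
    intro j hj
    have hj' := mem_range.1 hj
    have hj1 : j + 1 ≤ J := by omega
    have hj0 : j ≤ J := by omega
    rw [hgj (j + 1) hj1]
    exact hTJ (P j) (Q j) (H j) (α j) (P (j + 1)) (Q (j + 1)) (H (j + 1)) (α (j + 1)) X T f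
      (ch_s P Q J s (j + 1)) (hPpos j hj0) (hPQ j hj0).1 (hPQ j hj0).2.1 (hPQ j hj0).2.2
      (hαpos j hj0) (hP2 _ hj1) (hPQ _ hj1).2.1 (hPQ _ hj1).2.2 (hQP j hj').2.1 (hα1 _ hj1)
      (by linarith [hlogQ _ hj1]) (hQP j hj').2.2 hX hT hf (hInv _ hj1)
  have hsum := Finset.sum_le_sum hRj
  have hTX : 0 ≤ T / X + 1 := by positivity
  -- abbreviations
  obtain ⟨a, ha⟩ : ∃ a : ℕ → ℝ, ∀ j, a j = 1 / H j + 1 / P j + 1 / X := ⟨_, fun _ => rfl⟩
  obtain ⟨e, he⟩ : ∃ e : ℕ → ℝ, ∀ j, e j = (H (j + 1) * Real.log (Q (j + 1)) + 1) ^ 2 *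
      (H j * Real.log (Q j) + 1) * Real.exp (-((α (j + 1) - α j) * Real.log (P (j + 1))) +
        2 * α j * Real.log (Q j) + 2 * Real.log (Real.log (Q (j + 1)))) := ⟨_, fun _ => rfl⟩
  obtain ⟨b, hb⟩ : ∃ b : ℝ, b = (H 0 * Real.log (Q 0) + 1) ^ 2 * (P 0) ^ (-(2 * α 0)) *
      (T * Q 0 / X + 1) := ⟨_, rfl⟩
  have ha0 : ∀ j ≤ J, 0 ≤ a j := by
    intro j hj
    have h1 := hPpos j hj
    have h2 := (hPQ j hj).2.2
    rw [ha]
    positivity
  have he0 : ∀ j < J, 0 ≤ e j := by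
    intro j hj
    have h1 := hlogQ j hj.le
    have h2 := (hPQ j hj.le).2.2
    rw [he]
    have : 0 ≤ H j * Real.log (Q j) + 1 := by nlinarith
    positivity
  have hb0 : 0 ≤ b := by
    have h1 := hQpos 0 (Nat.zero_le _)
    rw [hb]
    positivity
  have e1 : ∑ j ∈ range (J + 1), (1 / H j + 1 / P j + 1 / X) = ∑ j ∈ range J, a (j + 1) + a 0 := by
    rw [← Finset.sum_range_succ']
    exact Finset.sum_congr rfl fun j _ => (ha j).symm
  have e2 : ∑ j ∈ range J, (H (j + 1) * Real.log (Q (j + 1)) + 1) ^ 2 *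
      (H j * Real.log (Q j) + 1) * Real.exp (-((α (j + 1) - α j) * Real.log (P (j + 1))) +
        2 * α j * Real.log (Q j) + 2 * Real.log (Real.log (Q (j + 1)))) = ∑ j ∈ range J, e j :=
    Finset.sum_congr rfl fun j _ => (he j).symm
  have e3 : ∑ j ∈ range J, C1 * (T / X + 1) * (1 / H (j + 1) + 1 / P (j + 1) + 1 / X +
        (H (j + 1) * Real.log (Q (j + 1)) + 1) ^ 2 *
      (H j * Real.log (Q j) + 1) * Real.exp (-((α (j + 1) - α j) * Real.log (P (j + 1))) +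
        2 * α j * Real.log (Q j) + 2 * Real.log (Real.log (Q (j + 1)))))
      = C1 * (T / X + 1) * (∑ j ∈ range J, a (j + 1)) + C1 * (T / X + 1) * ∑ j ∈ range J, e j := by
    rw [← Finset.mul_sum, ← mul_add, ← Finset.sum_add_distrib]
    congr 1
    exact Finset.sum_congr rfl fun j _ => by rw [← he j, ← ha (j + 1)]
  have hA : 0 ≤ ∑ j ∈ range J, a (j + 1) := Finset.sum_nonneg fun j hj => by
    have := mem_range.1 hj
    exact ha0 _ (by omega)
  have hE : 0 ≤ ∑ j ∈ range J, e j := Finset.sum_nonneg fun j hj => he0 j (mem_range.1 hj)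
  rw [e3] at hsum
  rw [← ha 0] at hR0
  have hR0' : ∫ t in {t | t ∈ Set.Icc (-T) T ∧ Small (P 0) (Q 0) (H 0) f (α 0) t}, g t ≤
      C0 * (T / X + 1) * a 0 + C0 * b := by
    rw [hb]
    refine hR0.trans (le_of_eq ?_)
    ring
  rw [e1, e2]
  have hgg : ∫ t in (-T)..T, ‖DP (IocN X (2 * X))
      (res (fun n => (∀ j ∈ range (J + 1), Hit (P j) (Q j) n) ∧ s n) f) t‖ ^ 2
      = ∫ t in (-T)..T, g t := by rw [hg]
  have hgl : ∫ t in {t | t ∈ Set.Icc (-T) T ∧ ¬ Small (P J) (Q J) (H J) f (α J) t},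
      ‖DP (IocN X (2 * X))
        (res (fun n => (∀ j ∈ range (J + 1), Hit (P j) (Q j) n) ∧ s n) f) t‖ ^ 2
      = ∫ t in {t | t ∈ Set.Icc (-T) T ∧ ¬ Small (P J) (Q J) (H J) f (α J) t}, g t := by rw [hg]
  rw [hgg, hgl, hI]
  refine hsplit.trans ?_
  have hlast : ∫ t in {t | t ∈ Set.Icc (-T) T ∧ t ∉ {t | Small (P J) (Q J) (H J) f (α J) t}}, g t
      = ∫ t in {t | t ∈ Set.Icc (-T) T ∧ ¬ Small (P J) (Q J) (H J) f (α J) t}, g t := rfl
  rw [hlast]
  refine add_le_add ?_ le_rfl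
  refine (add_le_add hR0' hsum).trans ?_
  have k1 : 0 ≤ C0 * (T / X + 1) * ∑ j ∈ range J, a (j + 1) := by positivity
  have k2 : 0 ≤ C1 * (T / X + 1) * a 0 := by
    have := ha0 0 (Nat.zero_le _)
    positivity
  have k3 : 0 ≤ C1 * b := by positivity
  have k4 : 0 ≤ C0 * (T / X + 1) * ∑ j ∈ range J, e j := by positivity
  have e4 : (C0 + C1) * (H 0 * Real.log (Q 0) + 1) ^ 2 * (P 0) ^ (-(2 * α 0)) *
      (T * Q 0 / X + 1) = (C0 + C1) * b := by rw [hb]; ring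
  rw [e4]
  nlinarith

/-- Module CH. -/
theorem st_CH (hT0 : ST_T0) (hTJ : ST_TJ) : ST_CH := ch_stmt_of hT0 hTJ

end Pool.Agent.Helper40.MR
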