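import Pool.Agent.Helper40.MR.Defs

open Finset MeasureTheory
open scoped BigOperators Nat

namespace Pool.Agent.Helper40.MR

theorem mer_zeta1 {t : ℝ} (ht : 1 ≤ t) : riemannZeta₁ (t : ℂ) ≠ 0 := by
  rcases eq_or_lt_of_le ht with h | h
  · rw [← h]; simp
  · have h1 : (t : ℂ) ≠ 1 := by
      intro h2
      have : t = 1 := by exact_mod_cast h2
      linarith
    have h2 := riemannZeta_ne_zero_of_one_le_re (s := (t : ℂ)) (by simpa using ht)
    intro h3
    rw [riemannZeta_eq_inv_sub_mul h1, h3, mul_zero] at h2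
    exact h2 rfl

theorem mer_zeta_bound : ∃ C : ℝ, 0 < C ∧ ∀ t : ℝ, 1 ≤ t → t ≤ 2 →
    |Real.log ‖riemannZeta₁ (t : ℂ)‖| ≤ C := by
  have hc : ContinuousOn (fun t : ℝ => |Real.log ‖riemannZeta₁ (t : ℂ)‖|) (Set.Icc 1 2) := by
    intro t ht
    have h0 : ‖riemannZeta₁ (t : ℂ)‖ ≠ 0 := norm_ne_zero_iff.2 (mer_zeta1 ht.1)
    have h1 : Continuous fun t : ℝ => ‖riemannZeta₁ (t : ℂ)‖ :=
      (differentiable_riemannZeta₁.continuous.comp Complex.continuous_ofReal).norm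
    exact ((h1.continuousAt.log h0).abs).continuousWithinAt
  obtain ⟨C, hC⟩ := isCompact_Icc.exists_bound_of_continuousOn hc
  refine ⟨|C| + 1, by positivity, fun t h1 h2 => ?_⟩
  have h := hC t ⟨h1, h2⟩
  rw [Real.norm_eq_abs, abs_abs] at h
  exact h.trans ((le_abs_self C).trans (by linarith))

theorem mer_one_CM : CM (fun _ => 1) := ⟨rfl, fun _ _ => by norm_num, fun _ => by simp⟩

theorem mer_nit_zero (n : ℕ) : nit n 0 = 1 := by
  unfold nit
  simp

theorem mer_Gv {σ : ℝ} (hσ : 0 < σ) :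
    Real.log ‖Gv (fun _ => 1) σ 0‖ = -Real.log σ + Real.log ‖riemannZeta₁ ((1 + σ : ℝ) : ℂ)‖ := by
  have h1 : Gv (fun _ => 1) σ 0 = riemannZeta ((1 + σ : ℝ) : ℂ) := by
    unfold Gv
    rw [Complex.ofReal_zero, zero_mul, add_zero]
    have h2 : (1 : ℝ) < (((1 + σ : ℝ) : ℂ)).re := by
      rw [Complex.ofReal_re]; linarith
    rw [← LSeries_one_eq_riemannZeta h2]
    rfl
  have h2 : (((1 + σ : ℝ) : ℂ)) ≠ 1 := by
    intro h
    have : (1 + σ : ℝ) = 1 := by exact_mod_cast h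
    linarith
  rw [h1, riemannZeta_eq_inv_sub_mul h2, norm_mul]
  have h3 : ‖(((1 + σ : ℝ) : ℂ) - 1)⁻¹‖ = σ⁻¹ := by
    rw [norm_inv]
    have : (((1 + σ : ℝ) : ℂ) - 1) = (σ : ℂ) := by push_cast; ring
    rw [this, Complex.norm_real, Real.norm_eq_abs, abs_of_pos hσ]
  have h4 : ‖riemannZeta₁ ((1 + σ : ℝ) : ℂ)‖ ≠ 0 := norm_ne_zero_iff.2 (mer_zeta1 (by linarith))
  rw [h3, Real.log_mul (inv_ne_zero hσ.ne') h4, Real.log_inv]

theorem mer_PrL (x : ℝ) : PrL x = (Finset.Ioc 0 ⌊x⌋₊).filter Nat.Prime := by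
  unfold PrL
  congr 1

theorem mer_theta {x : ℝ} (hx : 0 ≤ x) : ∑ p ∈ PrL x, Real.log p ≤ Real.log 4 * x := by
  rw [mer_PrL]
  exact Chebyshev.theta_le_log4_mul_x hx

theorem mer_primeFactors {n : ℕ} (hn : n ≠ 0) : ∑ p ∈ n.primeFactors, Real.log p ≤ Real.log n := by
  have h1 : ∑ p ∈ n.primeFactors, Real.log p = Real.log ((∏ p ∈ n.primeFactors, p : ℕ) : ℝ) := by
    push_cast
    rw [Real.log_prod]
    intro p hp
    have := (Nat.prime_of_mem_primeFactors hp).pos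
    exact_mod_cast this.ne'
  rw [h1]
  have h2 : ∏ p ∈ n.primeFactors, p ≤ n := Nat.le_of_dvd (Nat.pos_of_ne_zero hn) (Nat.prod_primeFactors_dvd n)
  refine Real.log_le_log ?_ (by exact_mod_cast h2)
  have : 0 < ∏ p ∈ n.primeFactors, p := Finset.prod_pos fun p hp => (Nat.prime_of_mem_primeFactors hp).pos
  exact_mod_cast this

theorem mer_log_sum (N : ℕ) : ∑ p ∈ (Finset.Ioc 0 N).filter Nat.Prime, Real.log p * ((N / p : ℕ) : ℝ)
    ≤ ∑ n ∈ Finset.Ioc 0 N, Real.log n := by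
  have h1 : ∀ n ∈ Finset.Ioc 0 N, ∑ p ∈ (Finset.Ioc 0 N).filter Nat.Prime,
      (if p ∣ n then Real.log p else 0) ≤ Real.log n := by
    intro n hn
    have hn' := Finset.mem_Ioc.1 hn
    rw [← Finset.sum_filter]
    refine le_trans (le_of_eq ?_) (mer_primeFactors (n := n) (by omega))
    refine Finset.sum_congr ?_ fun _ _ => rfl
    ext p
    simp only [mem_filter, mem_Ioc, Nat.mem_primeFactors]
    constructor
    · rintro ⟨⟨_, h2⟩, h3⟩
      exact ⟨h2, h3, by omega⟩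
    · rintro ⟨h2, h3, _⟩
      exact ⟨⟨⟨h2.pos, (Nat.le_of_dvd (by omega) h3).trans hn'.2⟩, h2⟩, h3⟩
  refine le_trans (le_of_eq ?_) (Finset.sum_le_sum h1)
  rw [Finset.sum_comm]
  refine Finset.sum_congr rfl fun p _ => ?_
  rw [← Finset.sum_filter, Finset.sum_const, Nat.Ioc_filter_dvd_card_eq_div, nsmul_eq_mul]
  ring

theorem mer_second {x : ℝ} (hx : 3 ≤ x) : ∑ p ∈ PrL x, Real.log p / p ≤ Real.log x + Real.log 4 := by
  have hx0 : 0 < x := by linarith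
  have h1 := mer_log_sum ⌊x⌋₊
  rw [← mer_PrL] at h1
  have h2 : ∑ n ∈ Finset.Ioc 0 ⌊x⌋₊, Real.log n ≤ x * Real.log x := by
    have h3 : ∀ n ∈ Finset.Ioc 0 ⌊x⌋₊, Real.log n ≤ Real.log x := by
      intro n hn
      have hn' := Finset.mem_Ioc.1 hn
      refine Real.log_le_log (by exact_mod_cast hn'.1) ?_
      exact (Nat.le_floor_iff hx0.le).1 hn'.2
    refine (Finset.sum_le_card_nsmul _ _ _ h3).trans ?_
    rw [Nat.card_Ioc, nsmul_eq_mul, Nat.sub_zero]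
    have h4 := Nat.floor_le hx0.le
    have h5 : 0 ≤ Real.log x := Real.log_nonneg (by linarith)
    exact mul_le_mul_of_nonneg_right h4 h5
  have h3 : ∑ p ∈ PrL x, Real.log p * (x / p - 1) ≤
      ∑ p ∈ PrL x, Real.log p * ((⌊x⌋₊ / p : ℕ) : ℝ) := by
    refine Finset.sum_le_sum fun p hp => ?_
    have hp1 := (Finset.mem_filter.1 hp).2.one_le
    have hlog : 0 ≤ Real.log p := Real.log_nonneg (by exact_mod_cast hp1)
    refine mul_le_mul_of_nonneg_left ?_ hlog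
    rw [← Nat.floor_div_natCast]
    have := Nat.lt_floor_add_one (x / p)
    linarith
  have h4 : ∑ p ∈ PrL x, Real.log p * (x / p - 1) =
      x * (∑ p ∈ PrL x, Real.log p / p) - ∑ p ∈ PrL x, Real.log p := by
    rw [Finset.mul_sum, ← Finset.sum_sub_distrib]
    refine Finset.sum_congr rfl fun p _ => ?_
    ring
  have h5 := mer_theta hx0.le
  have h6 : x * (∑ p ∈ PrL x, Real.log p / p) ≤ x * (Real.log x + Real.log 4) := by
    rw [h4] at h3
    nlinarith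
  exact le_of_mul_le_mul_left h6 hx0

theorem st_MER (hEUL : ST_EUL) (hSIG : ST_SIG) : ST_MER := by
  obtain ⟨Ce, hCe, hE⟩ := hEUL
  obtain ⟨Cs, hCs, hS⟩ := hSIG
  obtain ⟨Cz, hCz, hZ⟩ := mer_zeta_bound
  have hlog4 : 0 < Real.log 4 := Real.log_pos (by norm_num)
  refine ⟨Ce + Cs + Cz + Real.log 4, by positivity, fun x hx => ⟨?_, ?_⟩⟩
  · have hlog1 : 1 < Real.log x := by
      rw [Real.lt_log_iff_exp_lt (by linarith)]
      exact Real.exp_one_lt_three.trans_le hx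
    obtain ⟨σ, hσ⟩ : ∃ σ : ℝ, σ = 1 / Real.log x := ⟨_, rfl⟩
    have hσ0 : 0 < σ := by rw [hσ]; positivity
    have hσ1 : σ ≤ 1 := by
      rw [hσ, div_le_one (by linarith)]
      exact hlog1.le
    have h1 := (hE (fun _ => 1) mer_one_CM σ 0 hσ0 hσ1).2
    rw [mer_Gv hσ0] at h1
    have h2 := hS (fun _ => 1) x (fun _ => by simp) hx
    have e1 : ∑' p : Nat.Primes, ((1 : ℂ) * nit p 0).re * (p : ℝ) ^ (-(1 + σ)) =
        ∑' p : Nat.Primes, (1 : ℝ) * (p : ℝ) ^ (-(1 + 1 / Real.log x)) := by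
      refine tsum_congr fun p => ?_
      rw [mer_nit_zero, hσ]
      simp
    rw [e1] at h1
    have h3 := hZ (1 + σ) (by linarith) (by linarith)
    have h4 : Real.log σ = -Real.log (Real.log x) := by
      rw [hσ, one_div, Real.log_inv]
    rw [h4, neg_neg] at h1
    obtain ⟨S, hS'⟩ : ∃ S : ℝ, S = ∑' p : Nat.Primes, (1 : ℝ) * (p : ℝ) ^ (-(1 + 1 / Real.log x)) :=
      ⟨_, rfl⟩
    rw [← hS'] at h1 h2
    rw [abs_le] at h1 h2 h3 ⊢
    constructor <;> linarith [h1.1, h1.2, h2.1, h2.2, h3.1, h3.2]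
  · exact (mer_second hx).trans (by linarith)

end Pool.Agent.Helper40.MR
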